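import Pool.Agent.X128.PP.Main

/-!
# Paneled convex polyhedra cut along a matching

Definitions (`Pool/Agent/X128/PP/Defs.lean`): `ConvexPolyhedron` (a convex polyhedron in `ℝ³`,
given by its facets), `solid`, `panel` (the faces of dimension two), `IsEdge`, `IsVertex`,
`IsMatching` (a set of edges, no two with a common endpoint), `IsMotion P M φ` (`φ` is a motion of
the paneled polyhedron of `P` cut along the edges in `M`), `IsRigid P M`.
-/

set_option autoImplicit false

namespace Pool.Agent.Results.MP_e0197a_co.CutMatching

open Pool.Agent.X128.PP

/-- Let `P` be a convex polyhedron and `M` a matching in its 1-skeleton. Cutting along the edges of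
`M` creates no new motion: the motions of the paneled polyhedron cut along `M` are exactly the
motions of the paneled polyhedron with all its hinges. So the paneled polyhedron cut along `M` is
rigid if and only if the paneled polyhedron with all hinges is, which is Cauchy's theorem. -/
theorem result (P : ConvexPolyhedron) (M : Set (Set E3)) (hM : P.IsMatching M) :
    (∀ φ : P.ι → unitInterval → (E3 ≃ᵃⁱ[ℝ] E3), P.IsMotion M φ ↔ P.IsMotion ∅ φ) ∧
      (P.IsRigid M ↔ P.IsRigid ∅) :=
  ⟨fun φ => P.isMotion_iff hM φ, P.isRigid_iff hM⟩

end Pool.Agent.Results.MP_e0197a_co.CutMatching
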